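import Pool.Agent.H.MP_32a6cf_lc.C

set_option autoImplicit false

namespace Pool.Agent.Results.MP_32a6cf_lc.Yes

open Pool.Agent.H.MP_32a6cf_lc

/-- Over every finite alphabet with at least two letters, the functions recognisable by copyless
cost register automata over `ℚ` are not closed under reversal. -/
theorem result (S : Type) [Fintype S] (h : 2 ≤ Fintype.card S) :
    ∃ f : List S → ℚ, Recog f ∧ ¬ Recog fun w => f w.reverse := by
  classical
  obtain ⟨b, a, hb⟩ := Fintype.exists_pair_of_one_lt_card h
  refine ⟨(A0 a).value, ⟨_, fun _ => rfl⟩, ?_⟩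
  simp only [val_A0]
  exact not_recog a hb

end Pool.Agent.Results.MP_32a6cf_lc.Yes
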